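import Pool.Agent.H.MP_fa793f_nt.C

namespace Pool.Agent.Results.MP_fa793f_nt.Iff
open Polynomial
open scoped Classical

variable {F : Type} [Field F]

/-- `f_R = h^k f(g/h)` with `k = deg f`. -/
noncomputable def tr (g h f : F[X]) : F[X] :=
  ∑ i ∈ Finset.range (f.natDegree + 1), C (f.coeff i) * g ^ i * h ^ (f.natDegree - i)

/-- The distinct monic irreducible factors. -/
noncomputable def facs (f : F[X]) : Finset F[X] :=
  (UniqueFactorizationMonoid.normalizedFactors f).toFinset

/-- `δ_{f,R}(n)`. -/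
noncomputable def delta (g h f : F[X]) (n : ℕ) : ℕ := ∑ p ∈ facs ((tr g h)^[n] f), p.natDegree

/-- `N_{f,R}(n)`. -/
noncomputable def N (g h f : F[X]) (n : ℕ) : ℕ := (facs ((tr g h)^[n] f)).card

/-- `A_{f,R}(n)`. -/
noncomputable def A (g h f : F[X]) (n : ℕ) : ℝ := (delta g h f n : ℝ) / (N g h f n : ℝ)

/-- The composition `P ∘ Q` of rational functions. -/
noncomputable def comp (P Q : RatFunc F) : RatFunc F := aeval Q P.num / aeval Q P.denom

/-- `R^{(n)}`. -/
noncomputable def iter (R : RatFunc F) : ℕ → RatFunc F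
  | 0 => RatFunc.X
  | n + 1 => comp (iter R n) R

/-- `Δ_{α,R}(n)`: the number of solutions of `R^{(n)}(x) = α` in the algebraic closure. -/
noncomputable def Delta (R : RatFunc F) (a : AlgebraicClosure F) (n : ℕ) : ℕ :=
  {x : AlgebraicClosure F | aeval x (iter R n).denom ≠ 0 ∧
    aeval x (iter R n).num / aeval x (iter R n).denom = a}.ncard

/-- `α` is `R`-critical. -/
def Critical (R : RatFunc F) (a : AlgebraicClosure F) : Prop := BddAbove (Set.range (Delta R a))

lemma iter_eq (R : RatFunc F) : ∀ n, iter R n = H.MP_fa793f_nt.iter R n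
  | 0 => rfl
  | n + 1 => by rw [iter, iter_eq R n]; rfl

lemma crit_iff (R : RatFunc F) (a : AlgebraicClosure F) : Critical R a ↔
    BddAbove (Set.range fun n => (H.MP_fa793f_nt.Sol (H.MP_fa793f_nt.iter R n) a).ncard) := by
  have : Delta R a = fun n => (H.MP_fa793f_nt.Sol (H.MP_fa793f_nt.iter R n) a).ncard := by
    funext n; rw [Delta, iter_eq]; rfl
  rw [Critical, this]

theorem result (F : Type) [Field F] [Fintype F] (g h f : F[X]) (hc : IsCoprime g h)
    (hD : 1 ≤ max g.natDegree h.natDegree) (hf : 1 ≤ f.natDegree) :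
    ((∃ c : ℝ, 0 < c ∧ ∀ᶠ n : ℕ in Filter.atTop, c * n ≤ A g h f n) ↔
      ¬ BddAbove (Set.range (delta g h f))) ∧
    ∀ a : AlgebraicClosure F, aeval a f = 0 → a ∉ Set.range (algebraMap F (AlgebraicClosure F)) →
      ¬ Critical (algebraMap F[X] (RatFunc F) g / algebraMap F[X] (RatFunc F) h) a →
      ∃ c : ℝ, 0 < c ∧ ∀ᶠ n : ℕ in Filter.atTop, c * n ≤ A g h f n := by
  have f0 : f ≠ 0 := fun e => by simp [e] at hf
  have m := H.MP_fa793f_nt.main hc hD f0
  exact ⟨m, fun a h1 h2 h3 => m.2 (H.MP_fa793f_nt.unb hc hD f0 h1 h2 (by rwa [crit_iff] at h3))⟩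

end Pool.Agent.Results.MP_fa793f_nt.Iff
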