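import Pool.Agent.H.MP_fa793f_nt.C

namespace Pool.Agent.Results.MP_fa793f_nt.No
open Polynomial
open scoped Classical

variable {F : Type} [Field F]

/-- `f_R = h^k f(g/h)` with `k = deg f`. -/
noncomputable def tr (g h f : F[X]) : F[X] :=
  ∑ i ∈ Finset.range (f.natDegree + 1), C (f.coeff i) * g ^ i * h ^ (f.natDegree - i)

/-- The distinct monic irreducible factors. -/
noncomputable def facs (f : F[X]) : Finset F[X] :=
  (UniqueFactorizationMonoid.normalizedFactors f).toFinset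

/-- `δ_{f,R}(n)`. -/
noncomputable def delta (g h f : F[X]) (n : ℕ) : ℕ := ∑ p ∈ facs ((tr g h)^[n] f), p.natDegree

/-- `N_{f,R}(n)`. -/
noncomputable def N (g h f : F[X]) (n : ℕ) : ℕ := (facs ((tr g h)^[n] f)).card

/-- `A_{f,R}(n)`. -/
noncomputable def A (g h f : F[X]) (n : ℕ) : ℝ := (delta g h f n : ℝ) / (N g h f n : ℝ)

/-- The composition `P ∘ Q` of rational functions. -/
noncomputable def comp (P Q : RatFunc F) : RatFunc F := aeval Q P.num / aeval Q P.denom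

/-- `R^{(n)}`. -/
noncomputable def iter (R : RatFunc F) : ℕ → RatFunc F
  | 0 => RatFunc.X
  | n + 1 => comp (iter R n) R

/-- `Δ_{α,R}(n)`: the number of solutions of `R^{(n)}(x) = α` in the algebraic closure. -/
noncomputable def Delta (R : RatFunc F) (a : AlgebraicClosure F) (n : ℕ) : ℕ :=
  {x : AlgebraicClosure F | aeval x (iter R n).denom ≠ 0 ∧
    aeval x (iter R n).num / aeval x (iter R n).denom = a}.ncard

/-- `α` is `R`-critical. -/
def Critical (R : RatFunc F) (a : AlgebraicClosure F) : Prop := BddAbove (Set.range (Delta R a))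

lemma iter_eq (R : RatFunc F) : ∀ n, iter R n = H.MP_fa793f_nt.iter R n
  | 0 => rfl
  | n + 1 => by rw [iter, iter_eq R n]; rfl

lemma crit_iff (R : RatFunc F) (a : AlgebraicClosure F) : Critical R a ↔
    BddAbove (Set.range fun n => (H.MP_fa793f_nt.Sol (H.MP_fa793f_nt.iter R n) a).ncard) := by
  have : Delta R a = fun n => (H.MP_fa793f_nt.Sol (H.MP_fa793f_nt.iter R n) a).ncard := by
    funext n; rw [Delta, iter_eq]; rfl
  rw [Critical, this]

theorem result : ∃ (F : Type) (_ : Field F) (_ : Fintype F) (g h f : F[X]), IsCoprime g h ∧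
    1 ≤ max g.natDegree h.natDegree ∧ 1 ≤ f.natDegree ∧
    (∃ a : AlgebraicClosure F, aeval a f = 0 ∧
      ¬ Critical (algebraMap F[X] (RatFunc F) g / algebraMap F[X] (RatFunc F) h) a) ∧
    (∀ n, 1 ≤ N g h f n) ∧
    Filter.Tendsto (fun n : ℕ => A g h f n / n) Filter.atTop (nhds 0) := by
  have f0 : (X * (X - 1) : (ZMod 3)[X]) ≠ 0 :=
    mul_ne_zero X_ne_zero (by simpa using X_sub_C_ne_zero (1 : ZMod 3))
  have z : ∀ n, (0 : AlgebraicClosure (ZMod 3)) ∈ H.MP_fa793f_nt.Rt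
      ((H.MP_fa793f_nt.tr H.MP_fa793f_nt.g3 H.MP_fa793f_nt.h3)^[n] (X * (X - 1))) := by
    intro n
    induction n with
    | zero => exact (H.MP_fa793f_nt.mem_Rt f0 _).2 (by simp)
    | succ n ih =>
      rw [H.MP_fa793f_nt.Rt_succ H.MP_fa793f_nt.cop3 H.MP_fa793f_nt.D3 f0]
      exact Finset.mem_biUnion.2 ⟨0, ih,
        (H.MP_fa793f_nt.mem_fib' H.MP_fa793f_nt.cop3 H.MP_fa793f_nt.D3 _ _).2 (by simp)⟩
  have hN : ∀ n, 1 ≤ N H.MP_fa793f_nt.g3 H.MP_fa793f_nt.h3 (X * (X - 1)) n := fun n => by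
    have h1 := Finset.card_pos.2 ⟨_, z n⟩
    rw [← H.MP_fa793f_nt.delta_eq
      (H.MP_fa793f_nt.iter_ne H.MP_fa793f_nt.cop3 H.MP_fa793f_nt.D3 f0 n)] at h1
    exact Finset.card_pos.2 (Finset.nonempty_of_sum_ne_zero h1.ne')
  refine ⟨ZMod 3, inferInstance, inferInstance, H.MP_fa793f_nt.g3, H.MP_fa793f_nt.h3, X * (X - 1),
    H.MP_fa793f_nt.cop3, H.MP_fa793f_nt.D3, ?_, ⟨1, by simp, ?_⟩, hN, ?_⟩
  · rw [natDegree_X_mul (by simpa using X_sub_C_ne_zero (1 : ZMod 3))]; omega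
  · rw [crit_iff]; exact H.MP_fa793f_nt.noncrit
  · obtain ⟨M, hM⟩ := H.MP_fa793f_nt.bdd3
    refine squeeze_zero (fun n => by unfold A; positivity) (fun n => ?_)
      (tendsto_const_div_atTop_nhds_zero_nat (M : ℝ))
    refine div_le_div_of_nonneg_right ?_ (Nat.cast_nonneg _)
    refine (div_le_self (Nat.cast_nonneg _) (by exact_mod_cast hN n)).trans ?_
    exact_mod_cast hM ⟨n, rfl⟩

end Pool.Agent.Results.MP_fa793f_nt.No
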